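import Pool.Agent.Helper8.MG.Parts
import Pool.Graph.R_seed8.H682R2.StdTri

set_option autoImplicit false
set_option linter.all false

namespace Pool.Agent.Helper52.MG.STD

open Pool.Agent.H682R2.StdNil
open Pool.Agent.H682R2.StdTri (std_eq_zero_of_swap std_eq_zero_of_central stdAlt stdAlt_apply
  smul_swap)
open Pool.Agent.Helper8.MG (Tri)

section tri

variable {R : Type*} [CommRing R]

/-- depth of a lower triangular matrix -/
def Dp (d : ℕ) (A : Matrix (Fin 4) (Fin 4) R) : Prop := ∀ i j : Fin 4, (i : ℕ) < j + d → A i j = 0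

theorem Dp.mul {d e : ℕ} {A B : Matrix (Fin 4) (Fin 4) R} (hA : Dp d A) (hB : Dp e B) :
    Dp (d + e) (A * B) := by
  intro i j h
  rw [Matrix.mul_apply]
  refine Finset.sum_eq_zero fun k _ => ?_
  by_cases h1 : (i : ℕ) < k + d
  · rw [hA i k h1, zero_mul]
  · rw [hB k j (by omega), mul_zero]

theorem Dp.prod {n : ℕ} (f : Fin n → Matrix (Fin 4) (Fin 4) R) (d : Fin n → ℕ)
    (h : ∀ i, Dp (d i) (f i)) : Dp (∑ i, d i) (List.ofFn f).prod := by
  induction n with
  | zero =>
    intro i j hij
    simp only [Finset.univ_eq_empty, Finset.sum_empty, add_zero] at hij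
    rw [List.ofFn_zero, List.prod_nil, Matrix.one_apply_ne]
    intro h; subst h; omega
  | succ n ih =>
    rw [List.ofFn_succ, List.prod_cons, Fin.sum_univ_succ]
    exact (h 0).mul (ih _ _ fun i => h i.succ)

theorem eq_zero_of_Dp {A : Matrix (Fin 4) (Fin 4) R} {d : ℕ} (h : Dp d A) (hd : 4 ≤ d) : A = 0 := by
  ext i j
  exact h i j (by have := i.2; omega)

theorem std_eq_zero_of_depth {n : ℕ} (y : Fin n → Matrix (Fin 4) (Fin 4) R) (d : Fin n → ℕ)
    (h : ∀ i, Dp (d i) (y i)) (hd : 4 ≤ ∑ i, d i) : std y = 0 := by
  unfold std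
  refine Finset.sum_eq_zero fun σ _ => ?_
  have h1 := Dp.prod (fun i => y (σ i)) (fun i => d (σ i)) fun i => h _
  rw [eq_zero_of_Dp h1, smul_zero]
  rw [Equiv.sum_comp σ d]
  exact hd

/-- the idempotent `E_00 + E_33` -/
def e03 (R : Type*) [CommRing R] : Matrix (Fin 4) (Fin 4) R :=
  Matrix.single 0 0 1 + Matrix.single 3 3 1

/-- the components of a matrix -/
def comp (A : Matrix (Fin 4) (Fin 4) R) (k : Fin 4) : Matrix (Fin 4) (Fin 4) R :=
  if k = 3 then Matrix.of fun i j => if j < i then A i j else 0
  else if k = 0 then A 0 0 • e03 R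
  else A k k • Matrix.single k k 1

theorem comp_sum {A : Matrix (Fin 4) (Fin 4) R} (h : Tri A) : ∑ k, comp A k = A := by
  have h44 := h.eq
  ext i j
  have hl : ∀ i j : Fin 4, i < j → A i j = 0 := fun i j hij => h.low i j hij
  rw [Matrix.sum_apply, Fin.sum_univ_four]
  fin_cases i <;> fin_cases j <;>
    simp [comp, e03, Matrix.single_apply, Matrix.add_apply, h44, hl]

theorem comp_last_depth (A : Matrix (Fin 4) (Fin 4) R) : Dp 1 (comp A 3) := by
  intro i j h
  simp only [comp, if_true, Matrix.of_apply]
  rw [if_neg]
  intro h2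
  have : (j : ℕ) < i := h2
  omega

theorem comp_depth (A : Matrix (Fin 4) (Fin 4) R) (k : Fin 4) : Dp 0 (comp A k) := by
  intro i j h
  have hij : i ≠ j := by rintro rfl; omega
  have hji : ¬ (j < i) := by
    intro h2
    have : (j : ℕ) < i := h2
    omega
  unfold comp
  split_ifs with h1 h2
  · simp [hji]
  · have a : ¬ ((0 : Fin 4) = i ∧ (0 : Fin 4) = j) := by rintro ⟨rfl, rfl⟩; exact hij rfl
    have b : ¬ ((3 : Fin 4) = i ∧ (3 : Fin 4) = j) := by rintro ⟨rfl, rfl⟩; exact hij rfl
    simp only [e03, Matrix.smul_apply, Matrix.add_apply, Matrix.single_apply, a, b, if_false,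
      add_zero, smul_zero]
  · have a : ¬ (k = i ∧ k = j) := by rintro ⟨rfl, rfl⟩; exact hij rfl
    simp only [Matrix.smul_apply, Matrix.single_apply, a, if_false, smul_zero]

/-- the key case: one component of each of the types `0, 1, 2` -/
theorem std_key {n : ℕ} (hn : Even n) (v : Fin n → Matrix (Fin 4) (Fin 4) R)
    (A : Fin 3 → R) (ι : Fin 3 → Fin n) (hι : Function.Injective ι)
    (h0 : v (ι 0) = A 0 • e03 R)
    (h1 : ∀ k : Fin 3, k ≠ 0 → v (ι k) = A k • Matrix.single (k.castSucc) (k.castSucc) 1) :
    std v = 0 := by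
  have e : e03 R = 1 - Matrix.single 1 1 1 - Matrix.single 2 2 1 := by
    ext i j
    fin_cases i <;> fin_cases j <;>
      simp [e03, Matrix.single_apply, Matrix.one_apply]
  have hv : v = Function.update v (ι 0) (A 0 • e03 R) := by
    rw [← h0]; simp
  have key : ∀ k : Fin 3, k ≠ 0 →
      stdAlt R (Matrix (Fin 4) (Fin 4) R) n
        (Function.update v (ι 0) (Matrix.single k.castSucc k.castSucc 1)) = 0 := by
    intro k hk
    rw [stdAlt_apply]
    have hne : ι k ≠ ι 0 := fun h => hk (hι h)
    refine std_eq_zero_of_swap _ hne.symm fun x => ?_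
    rw [Function.update_self, Function.update_of_ne hne, h1 k hk]
    have := smul_swap (R := R) 1 (A k) (Matrix.single k.castSucc k.castSucc (1 : R)) x
    rwa [one_smul] at this
  rw [← stdAlt_apply (R := R), hv, AlternatingMap.map_update_smul, e, AlternatingMap.map_update_sub,
    AlternatingMap.map_update_sub]
  have k1 := key 1 (by decide)
  have k2 := key 2 (by decide)
  have c1 : (1 : Fin 3).castSucc = 1 := rfl
  have c2 : (2 : Fin 3).castSucc = 2 := rfl
  rw [c1] at k1
  rw [c2] at k2
  rw [k1, k2]
  have k0 : stdAlt R (Matrix (Fin 4) (Fin 4) R) n (Function.update v (ι 0) 1) = 0 := by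
    rw [stdAlt_apply]
    refine std_eq_zero_of_central hn _ (ι 0) fun x => ?_
    rw [Function.update_self, one_mul, mul_one]
  rw [k0]
  simp

theorem std_tri {n : ℕ} (hn : 6 ≤ n) (y : Fin n → Matrix (Fin 4) (Fin 4) R)
    (hy : ∀ i, Tri (y i)) : std y = 0 := by
  classical
  have h1 : y = fun i => ∑ k, comp (y i) k := by
    funext i; exact (comp_sum (hy i)).symm
  rw [← stdAlt_apply (R := R), h1]
  have h2 := MultilinearMap.map_sum (stdAlt R (Matrix (Fin 4) (Fin 4) R) n).toMultilinearMap
    (fun i k => comp (y i) k)
  refine h2.trans (Finset.sum_eq_zero fun r _ => ?_)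
  change stdAlt R (Matrix (Fin 4) (Fin 4) R) n (fun i => comp (y i) (r i)) = 0
  rw [stdAlt_apply]
  set d : Fin n → ℕ := fun i => if r i = 3 then 1 else 0 with hd
  by_cases h5 : 4 ≤ ∑ i, d i
  · refine std_eq_zero_of_depth _ d (fun i => ?_) h5
    simp only [hd]
    split_ifs with h
    · rw [h]; exact comp_last_depth _
    · exact comp_depth _ _
  · by_cases h6 : ∃ i j, i ≠ j ∧ r i = r j ∧ r i ≠ 3
    · obtain ⟨i, j, hij, hr, h4⟩ := h6
      refine std_eq_zero_of_swap _ hij fun x => ?_
      rw [← hr]
      unfold comp
      rw [if_neg h4, if_neg h4]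
      split_ifs
      · exact smul_swap _ _ _ _
      · exact smul_swap _ _ _ _
    · push Not at h6
      -- the set of indices of type other than `3`
      set S := Finset.univ.filter fun i => r i ≠ 3 with hS
      have hcard : (Finset.univ.filter fun i => r i = 3).card = ∑ i, d i := by
        rw [Finset.card_filter]
      have hsum : (Finset.univ.filter fun i => r i = 3).card + S.card = n := by
        rw [hS, Finset.card_filter_add_card_filter_not]
        simp
      have hinj : Set.InjOn r S := by
        intro i hi j hj hij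
        by_contra hne
        have h8 : r i ≠ 3 := by simpa [hS] using hi
        exact h8 (h6 i j hne hij)
      have himg : S.image r ⊆ Finset.univ.erase 3 := by
        intro k hk
        rw [Finset.mem_image] at hk
        obtain ⟨i, hi, rfl⟩ := hk
        have h8 : r i ≠ 3 := by simpa [hS] using hi
        simpa using h8
      have hc4 : (Finset.univ.erase (3 : Fin 4)).card = 3 := by simp
      have hcS : (S.image r).card = S.card := Finset.card_image_of_injOn hinj
      have hle := Finset.card_le_card himg
      have hSc : S.card = 3 ∧ n = 6 := by omega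
      have himg' : S.image r = Finset.univ.erase 3 :=
        Finset.eq_of_subset_of_card_le himg (by omega)
      have hex : ∀ k : Fin 3, ∃ i, r i = k.castSucc := by
        intro k
        have : k.castSucc ∈ S.image r := by
          rw [himg']
          have : k.castSucc ≠ 3 := by
            intro h
            have := congrArg Fin.val h
            simp at this
            omega
          simpa using this
        rw [Finset.mem_image] at this
        obtain ⟨i, _, hi⟩ := this
        exact ⟨i, hi⟩
      choose ι hι using hex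
      have hιi : Function.Injective ι := by
        intro a b hab
        have := (hι a).symm.trans ((congrArg r hab).trans (hι b))
        exact Fin.castSucc_injective _ this
      have hkne : ∀ k : Fin 3, k.castSucc ≠ (3 : Fin 4) := by decide
      refine std_key (by rw [hSc.2]; decide) _ (fun k => if k = 0 then y (ι 0) 0 0 else
        y (ι k) k.castSucc k.castSucc) ι hιi ?_ ?_
      · simp only [hι, if_true]
        rfl
      · intro k hk
        have hk0 : k.castSucc ≠ (0 : Fin 4) := by
          intro h
          exact hk (Fin.castSucc_injective _ h)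
        simp only [hι, hk, if_false, comp, hkne, hk0]

end tri

universe u

theorem t_STD : Pool.Agent.Helper8.MG.S_STD.{u} := by
  intro F _ n hn A hA
  exact std_tri hn A hA

end Pool.Agent.Helper52.MG.STD
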